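import Pool.Agent.helper22.CX.HA
import Pool.Agent.helper63.CX.CU

/-! # CX project, module PA: colours of the facets -/

set_option autoImplicit false

open Set Topology

namespace Pool.Agent.helper78.CX

section PartA
variable {X J κ : Type*} [Fintype X] [Fintype J]

theorem PA_ci_sub (i : X) (b : Bool) : (CI i b : Set (EuclideanSpace ℝ X)) ⊆ CF i b := by
  intro x hx
  refine ⟨fun j => ?_, hx.1⟩
  by_cases hj : j = i
  · rw [hj, hx.1]
    cases b <;> simp [bit]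
  · exact ⟨(hx.2 j hj).1.le, (hx.2 j hj).2.le⟩

theorem PA_hw_sub {E : Type*} [NormedAddCommGroup E] [InnerProductSpace ℝ E] {T : Type*}
    (L : T → StrongDual ℝ E) (b : T → ℝ) (t : T) : HW L b t ⊆ HG L b t := by
  intro x hx
  refine ⟨fun t' => ?_, hx.1⟩
  by_cases h : t' = t
  · rw [h]; exact hx.1.le
  · exact (hx.2 t' h).le

theorem PA_hg_closed {E : Type*} [NormedAddCommGroup E] [InnerProductSpace ℝ E] {T : Type*}
    (L : T → StrongDual ℝ E) (b : T → ℝ) (t : T) : IsClosed (HG L b t) := by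
  have h1 : IsClosed (HP L b) := by
    have : HP L b = ⋂ t, {x | L t x ≤ b t} := by ext x; simp [HP]
    rw [this]
    exact isClosed_iInter fun t => isClosed_le (L t).continuous continuous_const
  exact h1.inter (isClosed_eq (L t).continuous continuous_const)

/-- abstract: a refinement of the cube by an H-polytope gives a colouring of the constraints -/
theorem colours {T : Type*} [Finite T] (L : T → StrongDual ℝ (EuclideanSpace ℝ X)) (b : T → ℝ)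
    (x0 : EuclideanSpace ℝ X) (h0 : ∀ t, L t x0 < b t) (hW : ∀ t, (HW L b t).Nonempty)
    (φ : ↥(⋃₀ bdComplex (HP L b)) ≃ₜ ↥(⋃₀ bdComplex (cube X)))
    (hφ : ∀ F ∈ bdComplex (cube X), ∃ S, S ⊆ bdComplex (HP L b) ∧
      ∀ x : ↥(⋃₀ bdComplex (HP L b)), ((φ x : ↥(⋃₀ bdComplex (cube X))) : EuclideanSpace ℝ X) ∈ F ↔
        (x : EuclideanSpace ℝ X) ∈ ⋃₀ S) :
    ∃ col : T → X × Bool, ∀ (i : X) (β : Bool) (x : ↥(⋃₀ bdComplex (HP L b))),
      ((φ x : ↥(⋃₀ bdComplex (cube X))) : EuclideanSpace ℝ X) ∈ CF i β ↔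
        ∃ t, col t = (i, β) ∧ (x : EuclideanSpace ℝ X) ∈ HG L b t := by
  have hWG : ∀ t, HW L b t ⊆ HG L b t := PA_hw_sub L b
  have hbd := hp_bd L b x0 h0
  have key : ∀ (t : T) (x : ↥(⋃₀ bdComplex (HP L b))), (x : EuclideanSpace ℝ X) ∈ HW L b t →
      ∀ (i : X) (β : Bool),
      ((φ x : ↥(⋃₀ bdComplex (cube X))) : EuclideanSpace ℝ X) ∈ CF i β →
      ∀ y : ↥(⋃₀ bdComplex (HP L b)), (y : EuclideanSpace ℝ X) ∈ HG L b t →
      ((φ y : ↥(⋃₀ bdComplex (cube X))) : EuclideanSpace ℝ X) ∈ CF i β := by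
    intro t x hx i β hxF y hy
    obtain ⟨S, hS, hSx⟩ := hφ (CF i β) (cf_mem i β)
    obtain ⟨H, hHS, hxH⟩ := (hSx x).1 hxF
    have hH : H = HG L b t := hp_face_eq L b H (hS hHS) t x hxH hx
    refine (hSx y).2 ⟨H, hHS, ?_⟩
    rw [hH]; exact hy
  have hbdt : ∀ (t : T) (x : EuclideanSpace ℝ X), x ∈ HG L b t → x ∈ ⋃₀ bdComplex (HP L b) := by
    intro t x hx; rw [hbd]; exact mem_iUnion.2 ⟨t, hx⟩
  have hW' := hW
  choose w hw using hW
  have hwb : ∀ t, w t ∈ ⋃₀ bdComplex (HP L b) := fun t => hbdt t _ (hWG t (hw t))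
  have hc : ∀ t, ∃ p : X × Bool, ((φ ⟨w t, hwb t⟩ : ↥(⋃₀ bdComplex (cube X))) :
      EuclideanSpace ℝ X) ∈ CF p.1 p.2 := by
    intro t
    have h := (φ ⟨w t, hwb t⟩).2
    have h' := (Set.ext_iff.1 (cube_bd (X := X)) _).1 h
    obtain ⟨i, h'⟩ := mem_iUnion.1 h'
    obtain ⟨β, h'⟩ := mem_iUnion.1 h'
    exact ⟨(i, β), h'⟩
  choose col hcol using hc
  have hcol' : ∀ (t : T) (x : ↥(⋃₀ bdComplex (HP L b))), (x : EuclideanSpace ℝ X) ∈ HG L b t →
      ((φ x : ↥(⋃₀ bdComplex (cube X))) : EuclideanSpace ℝ X) ∈ CF (col t).1 (col t).2 :=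
    fun t x hx => key t ⟨w t, hwb t⟩ (hw t) (col t).1 (col t).2 (hcol t) x hx
  refine ⟨col, fun i β x => ⟨fun hx => ?_, ?_⟩⟩
  · by_contra hcon
    have hcl : IsClosed (⋃ t ∈ {t | col t = (i, β)}, HG L b t) :=
      Set.Finite.isClosed_biUnion (Set.toFinite _) fun t _ => PA_hg_closed L b t
    have hV : IsOpen (⋃ t ∈ {t | col t = (i, β)}, HG L b t)ᶜ := hcl.isOpen_compl
    set V := (⋃ t ∈ {t | col t = (i, β)}, HG L b t)ᶜ with hVdef
    have hxV : (x : EuclideanSpace ℝ X) ∈ V := by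
      intro hmem
      simp only [mem_iUnion, mem_ofPred_eq] at hmem
      obtain ⟨t, ht, hxt⟩ := hmem
      exact hcon ⟨t, ht, hxt⟩
    have hO : IsOpen (φ.symm ⁻¹' (Subtype.val ⁻¹' V)) :=
      (hV.preimage continuous_subtype_val).preimage φ.symm.continuous
    obtain ⟨U, hU, hUO⟩ := isOpen_induced_iff.1 hO
    have hUiff : ∀ y : ↥(⋃₀ bdComplex (cube X)), (y : EuclideanSpace ℝ X) ∈ U ↔
        ((φ.symm y : ↥(⋃₀ bdComplex (HP L b))) : EuclideanSpace ℝ X) ∈ V := by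
      intro y
      have := Set.ext_iff.1 hUO y
      exact this
    have hxU : ((φ x : ↥(⋃₀ bdComplex (cube X))) : EuclideanSpace ℝ X) ∈ U := by
      rw [hUiff, Homeomorph.symm_apply_apply]; exact hxV
    obtain ⟨z, hzU, hzI⟩ := ci_dense i β U hU ⟨_, hxU, hx⟩
    obtain ⟨U', hU', hzU', hU'I⟩ := ci_open i β z hzI
    have hzb : z ∈ ⋃₀ bdComplex (cube X) := ⟨CF i β, cf_mem i β, PA_ci_sub i β hzI⟩
    have hP : IsOpen (φ ⁻¹' (Subtype.val ⁻¹' (U ∩ U'))) :=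
      ((hU.inter hU').preimage continuous_subtype_val).preimage φ.continuous
    obtain ⟨Q, hQ, hQP⟩ := isOpen_induced_iff.1 hP
    have hQiff : ∀ y : ↥(⋃₀ bdComplex (HP L b)), (y : EuclideanSpace ℝ X) ∈ Q ↔
        ((φ y : ↥(⋃₀ bdComplex (cube X))) : EuclideanSpace ℝ X) ∈ U ∩ U' := by
      intro y
      have := Set.ext_iff.1 hQP y
      exact this
    have hz1 : ((φ.symm ⟨z, hzb⟩ : ↥(⋃₀ bdComplex (HP L b))) : EuclideanSpace ℝ X) ∈ Q := by
      rw [hQiff, Homeomorph.apply_symm_apply]; exact ⟨hzU, hzU'⟩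
    have hz2 := (φ.symm ⟨z, hzb⟩).2
    obtain ⟨t1, ht1⟩ := mem_iUnion.1 ((Set.ext_iff.1 hbd _).1 hz2)
    obtain ⟨t', x', hx'Q, hx'W⟩ := hw_dense L b x0 h0 hW' Q hQ t1 ⟨_, hz1, ht1⟩
    have hx'b : x' ∈ ⋃₀ bdComplex (HP L b) := hbdt t' _ (hWG t' hx'W)
    have h1 := (hQiff ⟨x', hx'b⟩).1 hx'Q
    have h2 := hU'I _ h1.2 (φ ⟨x', hx'b⟩).2
    have h3 := hcol' t' ⟨x', hx'b⟩ (hWG t' hx'W)
    obtain ⟨h4, h5⟩ := ci_cf i (col t').1 β (col t').2 _ h2 h3
    have h6 : col t' = (i, β) := Prod.ext h4 h5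
    have h7 := (hUiff _).1 h1.1
    rw [Homeomorph.symm_apply_apply] at h7
    apply h7
    simp only [mem_iUnion, mem_ofPred_eq]
    exact ⟨t', h6, hWG t' hx'W⟩
  · rintro ⟨t, ht, hx⟩
    have h := hcol' t x hx
    rw [ht] at h; exact h
end PartA

end Pool.Agent.helper78.CX
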